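import Pool.Agent.H19.KN.Targets

/-!
# Row TELE: the difference of two symbols
-/

namespace Pool.Agent.H34.KNA

open Pool.Agent.H62.MK Pool.Agent.H19.KN Polynomial Function

universe u

theorem pf_TELE : T_TELE.{u} := by
  intro F _ m
  induction m with
  | zero =>
    intro a b
    rw [Subsingleton.elim a b, sub_self]
    exact zero_mem _
  | succ m ih =>
    intro a b
    have ha : sym a = cup (a 0) (sym (Fin.tail a)) := by
      rw [cup_sym, Fin.cons_self_tail]
    have hb : sym b = cup (b 0) (sym (Fin.tail b)) := by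
      rw [cup_sym, Fin.cons_self_tail]
    have h1 : cup (a 0 / b 0) (sym (Fin.tail a)) =
        cup (a 0) (sym (Fin.tail a)) - cup (b 0) (sym (Fin.tail a)) := by
      rw [div_eq_mul_inv, cup_mul, cup_inv, sub_eq_add_neg]
    have h2 : sym a - sym b = cup (a 0 / b 0) (sym (Fin.tail a)) +
        cup (b 0) (sym (Fin.tail a) - sym (Fin.tail b)) := by
      rw [h1, map_sub, ha, hb]
      abel
    rw [h2]
    refine add_mem ?_ ?_
    · refine AddSubgroup.subset_closure ⟨Fin.cons (a 0 / b 0) (Fin.tail a), 0, cup_sym _ _, rfl, ?_⟩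
      intro j hj
      obtain ⟨j', rfl⟩ := Fin.exists_succ_eq_of_ne_zero hj
      left
      rfl
    · have h3 := ih (Fin.tail a) (Fin.tail b)
      have h4 : AddSubgroup.closure {z : MilnorK F m | ∃ (c : Fin m → Fˣ) (i : Fin m),
          z = sym c ∧ c i = (Fin.tail a) i / (Fin.tail b) i ∧
            ∀ j, j ≠ i → c j = (Fin.tail a) j ∨ c j = (Fin.tail b) j} ≤
          (AddSubgroup.closure {z : MilnorK F (m + 1) | ∃ (c : Fin (m + 1) → Fˣ)
            (i : Fin (m + 1)), z = sym c ∧ c i = a i / b i ∧
              ∀ j, j ≠ i → c j = a j ∨ c j = b j}).comap (cup (b 0)) := by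
        rw [AddSubgroup.closure_le]
        rintro z ⟨c, i, rfl, h5, h6⟩
        refine AddSubgroup.subset_closure ⟨Fin.cons (b 0) c, i.succ, cup_sym _ _, ?_, ?_⟩
        · rw [Fin.cons_succ, h5]
          rfl
        · intro j hj
          refine Fin.cases ?_ (fun j' => ?_) j (motive := fun j => j ≠ i.succ →
            (Fin.cons (b 0) c : Fin (m + 1) → Fˣ) j = a j ∨
              (Fin.cons (b 0) c : Fin (m + 1) → Fˣ) j = b j) hj
          · intro _
            right
            rfl
          · intro hj'
            rw [Fin.cons_succ]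
            exact h6 j' fun h => hj' (by rw [h])
      exact h4 h3

end Pool.Agent.H34.KNA
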