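import Pool.Agent.H19.KN.Targets

/-!
# Row TSL: the tame symbol of a symbol with a unit entry of small residue
-/

namespace Pool.Agent.H34.KNA

open Pool.Agent.H62.MK Pool.Agent.H19.KN Polynomial Function

universe u

theorem pf_TSL (h1 : T_SLOT.{u}) (h2 : T_TCU.{u}) (h3 : T_UMEM.{u}) : T_TSL.{u} := by
  intro F κ _ _ D m a i hi
  cases m with
  | zero =>
    have h4 : tame D 0 (sym a) = 0 := by
      rcases h1 F 0 a i with h | h
      · rw [h]
        exact (h2 F κ D (a i) hi).1 _
      · rw [h, map_neg, (h2 F κ D (a i) hi).1 _, neg_zero]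
    exact ⟨fun _ => h4, fun q n π S _ => by rw [h4]; exact zero_mem _⟩
  | succ m =>
    have h4 : ∃ y : MilnorK κ m, tame D (m + 1) (sym a) = cup (D.ures (a i)) y := by
      rcases h1 F (m + 1) a i with h | h
      · refine ⟨-tame D m (sym fun j => a (i.succAbove j)), ?_⟩
        rw [h, (h2 F κ D (a i) hi).2 m _, map_neg]
      · refine ⟨tame D m (sym fun j => a (i.succAbove j)), ?_⟩
        rw [h, map_neg, (h2 F κ D (a i) hi).2 m _, neg_neg]
    obtain ⟨y, hy⟩ := h4
    refine ⟨fun h => ?_, fun q n π S h => ?_⟩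
    · rw [hy, h, cup_one]
    · rw [hy]
      exact (h3 κ S π q n).2.1 m _ h y

end Pool.Agent.H34.KNA
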